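import Pool.Agent.Run7.h146.Met.Asm2
import Pool.Agent.Run7.h212.Met.HB
import Pool.Agent.Run7.h731.Met.LC
import Pool.Agent.Run7.h429.Met.NV
import Pool.Agent.Run7.h975.Met.NVP

set_option autoImplicit false

/-!
# Recurrence of annihilating ballistic meteors (MP_dd21b1_pr, Q1): YES

For every dimension `d ≥ 1` and every radius `ε > 0`: a homogeneous Poisson process of meteors (balls
of radius `ε` with independent uniform unit velocities, two meteors which touch are both removed)
exists, the infinite process exists almost surely, almost surely infinitely many meteors occupy the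
origin at some time, and the origin is occupied at arbitrarily large times.
-/

namespace Pool.Agent.Results.MP_dd21b1_pr.MeteorsRecurrent

open MeasureTheory Filter Topology ENNReal
open Run7.h146.Met

theorem result (d : ℕ) (hd : 0 < d) (ε : ℝ) (hε : 0 < ε) :
    -- the model exists
    (∃ (Ω : Type) (_ : MeasurableSpace Ω) (P : Measure Ω) (_ : IsProbabilityMeasure P)
      (Pi : Ω → Set (X d)), IsPoissonMeteors P d Pi) ∧
    -- in every realisation of the model, almost surely
    ∀ (Ω : Type) [MeasurableSpace Ω] (P : Measure Ω) [IsProbabilityMeasure P]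
      (Pi : Ω → Set (X d)), IsPoissonMeteors P d Pi →
      ∀ᵐ ω ∂P,
        -- the infinite process exists
        InfExists ε (Pi ω) ∧
        -- infinitely many meteors occupy the origin
        {z | z ∈ Pi ω ∧ Occupies ε (Pi ω) z}.Infinite ∧
        -- the origin is occupied at arbitrarily large times
        ∀ T : ℝ, ∃ t, T ≤ t ∧ 0 ≤ t ∧ ∃ z ∈ Pi ω,
          (∃ R₀ : ℝ, ∀ R, R₀ ≤ R → ExistsAt ε (Pi ω) R z t) ∧ ‖pos z t‖ ≤ ε := by
  have hHB : S_HB := Run7.h212.Met.HB.t_HB a_PO1 a_PO2 a_PO3 a_MK a_MB a_CT a_CM a_DM a_MEAS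
  have hLC : S_LC := Run7.h731.Met.t_LC a_PO1 a_PO2 a_MK a_MB a_IND a_MAP a_CT a_DIN a_MEAS a_LCB a_LCM
  have hNVP : S_NVP := Run7.h975.Met.t_NVP a_PO1 a_PO2 a_SUP a_IND a_MB a_MEAS
  have hNV : S_NV := Run7.h429.Met.t_NV a_PO1 a_PO2 a_IND a_MB a_MEAS hNVP
  refine ⟨hNV d hd, ?_⟩
  intro Ω _ P _ Pi hP
  exact final_of a_MAIN1 (a_MAIN2 hHB hLC) a_LOCP a_EXI a_FIN a_FSF d ε hd hε Ω P Pi hP

end Pool.Agent.Results.MP_dd21b1_pr.MeteorsRecurrent
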